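import Pool.Agent.Helper48.HHG.A5
import Pool.Agent.Helper48.HHG.B5

/-!
Negative answer to Q1: for the genus two surface with one puncture there are two mapping classes
whose large powers have a quotient which is not hierarchically hyperbolic.
-/

universe u

open MPb95792

/-- There are `g₀, g₁` in the mapping class group of the genus two surface with one puncture such
that for all positive `K₀ 0, K₀ 1` there are positive multiples `K 0, K 1` of them for which the
quotient by the normal closure of `g₀ ^ K 0, g₁ ^ K 1` is not hierarchically hyperbolic. -/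
theorem Pool.Agent.Results.MP_b95792_al.LargePowerQuotientNotHHG.result :
    ∃ g : Fin 2 → MCGS, ∀ K₀ : Fin 2 → ℕ, (∀ i, 0 < K₀ i) →
      ∃ K : Fin 2 → ℕ, (∀ i, 0 < K i ∧ K₀ i ∣ K i) ∧ 
        ¬ IsHHG.{u, 0} (MCGS ⧸ Subgroup.normalClosure (Set.range fun i => g i ^ K i)) := by
  let push : SurfaceGroup →* MCG21 := MulAut.conj.codRestrict MCG21 conj_mem
  let t : MCG21 := ⟨TT, twist_mem 1⟩
  refine ⟨![push gam, t], fun K₀ hK₀ => ⟨![3 * (K₀ 0 * K₀ 1), 9 * (K₀ 0 * K₀ 1)], ?_, ?_⟩⟩
  · have hK : 0 < K₀ 0 * K₀ 1 := Nat.mul_pos (hK₀ 0) (hK₀ 1)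
    intro i
    fin_cases i
    · exact ⟨by simpa using hK, ⟨3 * K₀ 1, by simp; ring⟩⟩
    · exact ⟨by simpa using hK, ⟨9 * K₀ 0, by simp; ring⟩⟩
  · have hK : 0 < K₀ 0 * K₀ 1 := Nat.mul_pos (hK₀ 0) (hK₀ 1)
    generalize K₀ 0 * K₀ 1 = K at hK
    have hS : (Set.range fun i => (![push gam, t] : Fin 2 → MCG21) i ^
        (![3 * K, 9 * K] : Fin 2 → ℕ) i) = {push gam ^ (3 * K), t ^ (9 * K)} := by
      ext m
      simp only [Set.mem_range, Set.mem_insert_iff, Set.mem_singleton_iff]
      constructor
      · rintro ⟨i, rfl⟩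
        fin_cases i
        · left; rfl
        · right; rfl
      · rintro (rfl | rfl)
        · exact ⟨0, rfl⟩
        · exact ⟨1, rfl⟩
    have key : ∀ S : Set MCG21, S = {push gam ^ (3 * K), t ^ (9 * K)} →
        ¬ IsHHG.{u, 0} (MCG21 ⧸ Subgroup.normalClosure S) := by
      rintro S rfl hG
      obtain ⟨F, hF, hconj⟩ := finite_conj hG
      obtain ⟨v, hv3, hv⟩ := infinitely_many MCG21.subtype push (fun x => rfl)
        (fun m x => by
          ext y
          simp [push])
        t rfl (fun m => m.2) (fun k => ⟨SK (k + 2), SK_mem _⟩) (fun k => rfl) hK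
      choose w hwF hwc using fun k => hconj (v k) (hv3 k)
      have hinj : Function.Injective w := by
        intro k l hkl
        apply hv
        have h1 := hwc k
        rw [hkl] at h1
        exact h1.trans (hwc l).symm
      exact (Set.infinite_range_of_injective hinj) (hF.subset (by
        rintro _ ⟨k, rfl⟩
        exact hwF k))
    exact key _ hS
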